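import Pool.Agent.BoltzM.M6.Phys
import Pool.Agent.BoltzM.Spec.Bg
import Pool.Agent.BoltzM.Coll.Nice

/-! Module M6a: from the rescaled solution to the physical statement. -/

set_option autoImplicit false

open MeasureTheory Set Filter Topology Pool.Agent.BoltzM.BoltzC
open scoped ContDiff

noncomputable section

namespace Pool.Agent.BoltzM.M6

variable [Dim]

open Stmt

theorem clm_eq_sum (L : E3 →L[ℝ] ℝ) (z : E3) : L z = ∑ i, z i * L (ev i) := by
  conv_lhs => rw [← sum_coord_ev z]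
  simp

theorem fderiv_two {a : ℝ → E3 → ℝ} (ha : Differentiable ℝ fun p : ℝ × E3 => a p.1 p.2)
    (s τ : ℝ) (x z : E3) : fderiv ℝ (fun p : ℝ × E3 => a p.1 p.2) (s, x) (τ, z) =
      τ * dS a s x + ∑ i, z i * dX i (a s) x := by
  have h := (ha (s, x)).hasFDerivAt
  set L := fderiv ℝ (fun p : ℝ × E3 => a p.1 p.2) (s, x)
  have h1 : HasDerivAt (fun t => a t x) (L (1, 0)) s :=
    h.comp_hasDerivAt (f := fun t => (t, x)) s ((hasDerivAt_id s).prodMk (hasDerivAt_const s x))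
  have h2 : HasFDerivAt (a s) (L.comp (ContinuousLinearMap.inr ℝ ℝ E3)) x :=
    h.comp x (hasFDerivAt_prodMk_right s x)
  have h3 : ∀ i, dX i (a s) x = (L.comp (ContinuousLinearMap.inr ℝ ℝ E3)) (ev i) := fun i =>
    dX_eq (HasDerivAt.hd (h2.hasLineDerivAt (ev i)))
  simp only [h3]
  rw [dS, h1.deriv, ← clm_eq_sum, ← smul_eq_mul, ← map_smul, ContinuousLinearMap.comp_apply,
    ← map_add]
  simp

theorem fderiv_three {g : ℝ → E3 → E3 → ℝ}
    (hg : Differentiable ℝ fun q : ℝ × E3 × E3 => g q.1 q.2.1 q.2.2) (s τ : ℝ) (x V z w : E3) :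
    fderiv ℝ (fun q : ℝ × E3 × E3 => g q.1 q.2.1 q.2.2) (s, x, V) (τ, z, w) =
      τ * deriv (fun t => g t x V) s + ∑ i, z i * fderiv ℝ (fun y => g s y V) x (ev i) +
        ∑ j, w j * fderiv ℝ (g s x) V (ev j) := by
  have h := (hg (s, x, V)).hasFDerivAt
  set L := fderiv ℝ (fun q : ℝ × E3 × E3 => g q.1 q.2.1 q.2.2) (s, x, V)
  have h1 : HasDerivAt (fun t => g t x V) (L (1, 0)) s :=
    h.comp_hasDerivAt (f := fun t => (t, x, V)) s
      ((hasDerivAt_id s).prodMk (hasDerivAt_const s (x, V)))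
  have h2 : HasFDerivAt (fun y => g s y V) _ x :=
    h.comp (f := fun y => (s, y, V)) x
      ((hasFDerivAt_const s x).prodMk (hasFDerivAt_prodMk_left x V))
  have h3 : HasFDerivAt (g s x) _ V :=
    h.comp (f := fun W => (s, x, W)) V
      ((hasFDerivAt_const s V).prodMk (hasFDerivAt_prodMk_right x V))
  rw [h1.deriv, h2.fderiv, h3.fderiv, ← clm_eq_sum, ← clm_eq_sum, ← smul_eq_mul, ← map_smul,
    ContinuousLinearMap.comp_apply, ContinuousLinearMap.comp_apply, ← map_add, ← map_add]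
  simp

/-- the physical velocity as a vector field -/
def uV (B : BgD) (p : ℝ × E3) : E3 := WithLp.toLp 2 fun i => B.u i p.1 p.2

theorem contDiff_uV {B : BgD} (hB : B.Ok) : ContDiff ℝ ∞ (uV B) :=
  contDiff_euclidean.2 hB.cd_u

theorem fderiv_uV {B : BgD} (hB : B.Ok) (p z : ℝ × E3) (j : Ix) :
    fderiv ℝ (uV B) p z j = fderiv ℝ (fun p : ℝ × E3 => B.u j p.1 p.2) p z := by
  have h := ((contDiff_uV hB).differentiable (by simp) p).hasFDerivAt
  have h1 : HasFDerivAt (fun p : ℝ × E3 => B.u j p.1 p.2) _ p :=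
    (EuclideanSpace.proj j : E3 →L[ℝ] ℝ).hasFDerivAt.comp p h
  rw [h1.fderiv]
  rfl

theorem far_bound {B : BgD} (hB : B.Ok) {ρ : ℝ} (hρ : 0 < ρ) : ∃ M, ∀ s, 0 ≤ s → ∀ x,
    (∀ n, ρ ≤ ‖x + lat n‖) → ‖uV B (s, x)‖ + B.C s x ≤ M := by
  obtain ⟨K, hK⟩ := hB.sym
  refine ⟨(dd + 1) * (|K 0| * √(ρ ^ 2 / 12) ^ (1 - B.r)), fun s hs x hx => ?_⟩
  have h1 : √(ρ ^ 2 / 12) ≤ B.Lam s x := by
    refine Real.sqrt_le_sqrt ?_
    obtain ⟨n, hn⟩ := exists_lattice_mem_cube (WithLp.toLp 2 fun _ => -1 / 2) x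
    have e : ∑ i, (n i : ℝ) • ev i = lat n := by
      conv_rhs => rw [← sum_coord_ev (lat n)]
      rfl
    rw [e] at hn
    have h2 := B.cut.rho2_ge (x + lat n) fun i => by
      have := hn i
      simp only [mem_Ioc] at this
      rw [abs_le]
      constructor <;> linarith [this.1, this.2]
    rw [per_lat B.cut.per_rho2] at h2
    have h3 : ρ ^ 2 ≤ ‖x + lat n‖ ^ 2 := pow_le_pow_left₀ hρ.le (hx n) 2
    linarith [Real.exp_pos (-2 * s)]
  have h0 : 0 < √(ρ ^ 2 / 12) := Real.sqrt_pos.2 (by positivity)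
  have h2 : K 0 * B.Lam s x ^ (1 - B.r) ≤ |K 0| * √(ρ ^ 2 / 12) ^ (1 - B.r) :=
    mul_le_mul (le_abs_self _) (Real.rpow_le_rpow_of_nonpos h0 h1 (by linarith [hB.r_gt]))
      (Real.rpow_nonneg (h0.le.trans h1) _) (abs_nonneg _)
  have h3 : ∀ i, |B.u i s x| ≤ K 0 * B.Lam s x ^ (1 - B.r) := fun i => by
    simpa [dXw] using (hK s hs).1 i [] le_rfl x
  have h4 : |B.C s x| ≤ K 0 * B.Lam s x ^ (1 - B.r) := by
    simpa [dXw] using (hK s hs).2.1 [] le_rfl x
  have h5 := (norm_le_sum_abs (uV B (s, x))).trans (sum_le_Ix fun i => (h3 i).trans h2)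
  linarith [le_abs_self (B.C s x)]

theorem top_C {B : BgD} (hB : B.Ok) : Tendsto (fun s => B.C s 0) atTop atTop := by
  obtain ⟨c0, hc0, h⟩ := hB.C_ge
  have h1 : ∀ s, B.Lam s 0 ^ (1 - B.r) = Real.exp ((B.r - 1) * s) := fun s => by
    rw [BgD.Lam, B.cut.rho2_eq 0 fun i => by simp, norm_zero, zero_pow two_ne_zero, add_zero,
      Real.sqrt_eq_rpow, ← Real.exp_mul, ← Real.exp_mul]
    congr 1
    ring
  refine tendsto_atTop_mono' _ ((eventually_ge_atTop 0).mono fun s hs => h s hs 0) ?_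
  simp only [h1]
  exact (Real.tendsto_exp_atTop.comp
    (tendsto_id.const_mul_atTop (by linarith [hB.r_gt]))).const_mul_atTop hc0

theorem shift_eq {τ C : ℝ} (hτ : τ ≠ 0) (hC : C ≠ 0) (a c : ℝ) (u V p q : Ix → ℝ) (j : Ix) :
    -(C⁻¹ * (τ * a + ∑ i, (u i + C * V i) * p i + (τ * c + ∑ i, (u i + C * V i) * q i) * V j)) =
      τ * (-(a + ∑ i, τ⁻¹ * u i * p i) / C +
        ∑ i, (-(τ⁻¹ * p i) - if i = j then (c + ∑ i, τ⁻¹ * u i * q i) / C else 0) * V i +
        ∑ i, -(τ⁻¹ * q i) * V i * V j) := by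
  have e1 : ∀ p : Ix → ℝ, ∑ i, (u i + C * V i) * p i = ∑ i, u i * p i + C * ∑ i, p i * V i :=
    fun p => by
      rw [Finset.mul_sum, ← Finset.sum_add_distrib]
      exact Finset.sum_congr rfl fun i _ => by ring
  have e2 : ∀ p : Ix → ℝ, ∑ i, τ⁻¹ * u i * p i = τ⁻¹ * ∑ i, u i * p i := fun p => by
    simp only [Finset.mul_sum, mul_assoc]
  have e3 : ∀ p : Ix → ℝ, ∑ i, -(τ⁻¹ * p i) * V i = -(τ⁻¹ * ∑ i, p i * V i) := fun p => by
    simp only [Finset.mul_sum, mul_assoc, neg_mul, Finset.sum_neg_distrib]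
  simp only [sub_mul, ite_mul, zero_mul, Finset.sum_sub_distrib, Finset.sum_ite_eq',
    Finset.mem_univ, if_true, ← Finset.sum_mul, e1, e2, e3]
  field_simp
  ring

theorem eqn_alg {τ C A K gs Γ : ℝ} {u V gx gv b : Ix → ℝ} (hτ : τ ≠ 0)
    (h : gs + ∑ i, (τ⁻¹ * u i + τ⁻¹ * C * V i) * gx i + ∑ j, b j * gv j = A * (τ⁻¹ * K) * Γ) :
    τ * gs + ∑ i, (u i + C * V i) * gx i + ∑ j, τ * b j * gv j = A * K * Γ := by
  have e1 : ∑ i, (u i + C * V i) * gx i = τ * ∑ i, (τ⁻¹ * u i + τ⁻¹ * C * V i) * gx i := by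
    rw [Finset.mul_sum]
    exact Finset.sum_congr rfl fun i _ => by field_simp
  have e2 : ∑ j, τ * b j * gv j = τ * ∑ j, b j * gv j := by
    rw [Finset.mul_sum]
    exact Finset.sum_congr rfl fun i _ => by ring
  have e3 : A * K * Γ = τ * (A * (τ⁻¹ * K) * Γ) := by field_simp
  rw [e1, e2, e3, ← h]
  ring

theorem sq_bound (p : ℕ) : ∃ K : ℝ, ∀ V : E3, (1 + ‖V‖) ^ p * |sqM V ^ 2| ≤ K ∧
    (1 + ‖V‖) ^ p * ‖fderiv ℝ (fun W => sqM W ^ 2) V‖ ≤ K := by
  refine ⟨Real.exp ((p + 1 : ℕ) ^ 2), fun V => ?_⟩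
  have h1 := pow_mul_sqM_le (p + 1) V
  have h2 := sqM_pos V
  have h3 := sqM_le_one V
  have h4 : 0 < (1 + ‖V‖) ^ p * sqM V := by positivity
  have h5 := norm_nonneg V
  rw [pow_succ (1 + ‖V‖)] at h1
  rw [((hasFDerivAt_sqM V).pow 2).fderiv, nsmul_eq_mul, norm_smul, norm_smul, innerSL_apply_norm,
    Real.norm_of_nonneg (by positivity), Real.norm_eq_abs, abs_div, abs_neg, abs_of_pos h2, abs_two,
    abs_of_nonneg (sq_nonneg _)]
  simp only [Nat.cast_ofNat, Nat.add_one_sub_one, pow_one]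
  constructor
  · nlinarith [mul_nonneg h4.le h5, mul_nonneg h4.le (sub_nonneg.2 h3)]
  · nlinarith [mul_nonneg (mul_nonneg h4.le h5) (sub_nonneg.2 h3)]

theorem phys_of (hσ : TriStmt) (p : ℕ) : ∃ (ε m K : ℝ) (p' : ℕ), 0 < ε ∧ ∀ (B : BgD), B.Ok →
    ∀ (A s0 : ℝ) (f : ℝ → E3 → E3 → ℝ), 0 < A → 0 ≤ s0 →
    Lim B.fld (fun s x => A * B.k1 s x) s0 ε p' f →
    Phys (p + (2 * dd + 4)) B.r s0 A K m (uV B) (fun q => B.C q.1 q.2)
      (fun q => sqM q.2.2 ^ 2 + f q.1 q.2.1 q.2.2)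
      (fderiv ℝ fun q : ℝ × E3 × E3 => sqM q.2.2 ^ 2 + f q.1 q.2.1 q.2.2) := by
  obtain ⟨P, -, hσ⟩ := hσ
  obtain ⟨ε, hε, m, hm, hlow⟩ := exists_mass_lower
  obtain ⟨K, hK⟩ := sq_bound (p + (2 * dd + 4) + P)
  refine ⟨ε, m, 2 + K + ε, p + (2 * dd + 4) + P, hε, fun B hB A s0 g hA hs0 hg => ?_⟩
  have hK0 : 0 ≤ K := le_trans (by positivity) (hK 0).1
  have hg1 := hg.c1.differentiable one_ne_zero
  have hM0 : ContDiff ℝ ∞ fun W : E3 => sqM W ^ 2 := contDiff_sqM.pow 2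
  have hM1 := hM0.differentiable (by simp)
  have hM : ContDiff ℝ ∞ fun q : ℝ × E3 × E3 => sqM q.2.2 ^ 2 := hM0.comp (by fun_prop)
  have hH : ContDiff ℝ 1 fun q : ℝ × E3 × E3 => sqM q.2.2 ^ 2 + g q.1 q.2.1 q.2.2 :=
    (hM.of_le (by simp)).add hg.c1
  have hN : ∀ s, s0 ≤ s → ∀ x, Coll.Nice P _ fun W => sqM W ^ 2 + g s x W := fun s hs x =>
    ((Coll.nice_of_fderiv hM1 (fun V => (hK V).1) fun V => (hK V).2).add (hg.nice s hs x)).mono
      (by omega)
  have hw : ∀ V : E3, (1 + ‖V‖) ^ (p + (2 * dd + 4)) ≤ (1 + ‖V‖) ^ (p + (2 * dd + 4) + P) :=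
    fun V => pow_le_pow_right₀ (by linarith [norm_nonneg V]) (by omega)
  refine
    { hP := by omega
      hr := by linarith [hB.r_gt]
      hA := hA
      hm := hm
      cu := (contDiff_uV hB).of_le (by simp)
      cc := hB.cd_C.of_le (by simp)
      cu0 := (contDiff_uV hB).comp (contDiff_prodMk_right s0)
      cc0 := hB.cd_C.comp (contDiff_prodMk_right s0)
      cH0 := (hM0.comp contDiff_snd).add hg.init_smooth
      pu := fun s i x => by simp only [uV, hB.per_u _ s i x]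
      pc := hB.per_C
      pH := fun s _ i x => by simp only [hg.per s _ i x]
      cpos := fun q => hB.C_pos _ _
      top := top_C hB
      far := fun ρ hρ => (far_bound hB hρ).imp fun M hM s hs => hM s (hs0.trans hs)
      hd := fun q _ => (hH.differentiable one_ne_zero q).hasFDerivAt.hasFDerivWithinAt
      cd := (hH.continuous_fderiv one_ne_zero).continuousOn
      nonneg := fun x V => by linarith [(abs_le.1 (hg.init_small x V)).1, sq_nonneg (sqM V)]
      le := fun x V => ?_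
      abs := fun s hs x V => ?_
      dec := fun S => ?_
      low := fun s hs x => hlow _ (hg.nice s hs x).continuous fun V =>
        abs_le_wP (by omega) ((hg.nice s hs x).1 V)
      int := fun s hs x V => (hσ _ _ (hN s hs x) V).1
      eqn := fun s hs x V => ?_ }
  · have h1 := (abs_le.1 (hg.init_small x V)).2
    have h2 := sqM_pos V
    nlinarith [mul_nonneg h2.le (sub_nonneg.2 (sqM_le_one V)), mul_nonneg h2.le hK0,
      mul_nonneg h2.le hε.le]
  · refine (mul_le_mul (hw V) (abs_add_le _ _) (abs_nonneg _) (by positivity)).trans ?_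
    rw [mul_add]
    linarith [(hK V).1, (hg.nice s hs x).1 V]
  · obtain ⟨K', hK'⟩ := hg.dec S
    refine ⟨K + K', fun s hs x V => ?_⟩
    have d1 : HasFDerivAt (fun q : ℝ × E3 × E3 => sqM q.2.2 ^ 2) _ (s, x, V) :=
      (hM1 V).hasFDerivAt.comp (f := fun q : ℝ × E3 × E3 => q.2.2) (s, x, V)
        ((ContinuousLinearMap.snd ℝ E3 E3).comp (ContinuousLinearMap.snd ℝ ℝ (E3 × E3))).hasFDerivAt
    have d2 : ‖(fderiv ℝ (fun W => sqM W ^ 2) V).comp ((ContinuousLinearMap.snd ℝ E3 E3).comp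
        (ContinuousLinearMap.snd ℝ ℝ (E3 × E3)))‖ ≤ ‖fderiv ℝ (fun W => sqM W ^ 2) V‖ :=
      ContinuousLinearMap.opNorm_le_bound _ (norm_nonneg _) fun z =>
        ((fderiv ℝ (fun W => sqM W ^ 2) V).le_opNorm _).trans (mul_le_mul_of_nonneg_left
          ((norm_snd_le z.2).trans (norm_snd_le z)) (norm_nonneg _))
    rw [(d1.fun_add (hg1 (s, x, V)).hasFDerivAt).fderiv]
    refine (mul_le_mul (hw V) ((norm_add_le _ _).trans (add_le_add d2 le_rfl)) (norm_nonneg _)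
      (by positivity)).trans ?_
    rw [mul_add]
    exact add_le_add (hK V).2 (hK' s hs x V)
  · have hgx : HasFDerivAt (fun y => g s y V) (fderiv ℝ (fun y => g s y V) x) x :=
      (hg1.comp (f := fun y => (s, y, V)) (by fun_prop) x).hasFDerivAt
    have hgs : HasDerivAt (fun t => g t x V) (deriv (fun t => g t x V) s) s :=
      (hg1.comp (f := fun t => (t, x, V)) (by fun_prop) s).hasDerivAt
    have he := hg.eqn s hs x V
    rw [fderiv_three (g := fun s x V => sqM V ^ 2 + g s x V) (hH.differentiable one_ne_zero),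
      (hσ _ _ (hN s hs x) V).2, (hgs.const_add (sqM V ^ 2)).deriv,
      (hgx.const_add (sqM V ^ 2)).fderiv]
    have hC := (hB.C_pos s x).ne'
    have hE : Real.exp (-B.r * s) = (Real.exp (B.r * s))⁻¹ := by rw [neg_mul, Real.exp_neg]
    have hE0 := (Real.exp_pos (B.r * s)).ne'
    simp only [PiLp.neg_apply, PiLp.smul_apply, PiLp.add_apply, fderiv_uV hB,
      fderiv_two ((hB.cd_u _).differentiable (by simp)), fderiv_two (hB.cd_C.differentiable (by simp)),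
      smul_eq_mul, uV, shift_eq hE0 hC]
    simp only [BgD.fld, Fld.bj, BgD.mat, BgD.k1, hE] at he
    exact eqn_alg hE0 he

theorem final_of (hσ : TriStmt) : FinalStmt := fun p => by
  obtain ⟨ε, m, K, p', hε, h⟩ := phys_of hσ p
  refine ⟨ε, p', hε, fun B hB A s0 g hA hs0 hg => ?_⟩
  have h1 := h B hB A s0 g hA hs0 hg
  refine ⟨_, _, Tb_pos h1.hr, h1.admissible', ⟨h1.pre.c1, h1.pre.periodic, h1.pre.integrable,
    h1.pre.eqn, fun T' hT' => ?_⟩, h1.implosion⟩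
  obtain ⟨K', hK'⟩ := h1.pre.nice T' hT'
  exact ⟨K', fun t ht => ⟨fun x => ((hK' t ht).1 x).mono (by omega), (hK' t ht).2⟩⟩

end Pool.Agent.BoltzM.M6
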