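import Pool.Agent.BoltzM.M6.Scale
import Pool.Agent.BoltzM.Calc.Torus
import Pool.Agent.BoltzM.Coll.Nice
import Pool.Agent.BoltzM.Spec.Bg

/-! From the rescaled unknown `H(s, x, V)` to the physical solution `f(t, x, v)`. -/

set_option autoImplicit false

open MeasureTheory Set Filter Topology Pool.Agent.BoltzM.BoltzC
open scoped ContDiff

noncomputable section

namespace Pool.Agent.BoltzM.M6

variable [Dim]

open Stmt

/-- blow-up time -/
def Tb (r s0 : ℝ) : ℝ := Real.exp (-(r * s0)) / r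

/-- self-similar time as a function of the physical time -/
def sOf (r s0 t : ℝ) : ℝ := -Real.log (r * (Tb r s0 - t)) / r

section Time

variable {r s0 : ℝ}

theorem Tb_pos (hr : 0 < r) : 0 < Tb r s0 := div_pos (Real.exp_pos _) hr

theorem sOf_zero (hr : 0 < r) : sOf r s0 0 = s0 := by
  rw [sOf, Tb, sub_zero, mul_div_cancel₀ _ hr.ne', Real.log_exp]
  field_simp

theorem sOf_mono (hr : 0 < r) {t t' : ℝ} (h : t ≤ t') (h' : t' < Tb r s0) :
    sOf r s0 t ≤ sOf r s0 t' := by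
  refine div_le_div_of_nonneg_right (neg_le_neg (Real.log_le_log (mul_pos hr (sub_pos.2 h')) ?_))
    hr.le
  gcongr

theorem le_sOf (hr : 0 < r) {t : ℝ} (ht : t ∈ Ico 0 (Tb r s0)) : s0 ≤ sOf r s0 t := by
  have := sOf_mono hr ht.1 ht.2
  rwa [sOf_zero hr] at this

theorem hasDerivAt_sOf (hr : 0 < r) {t : ℝ} (ht : t < Tb r s0) :
    HasDerivAt (sOf r s0) (Real.exp (r * sOf r s0 t)) t := by
  have h0 : 0 < r * (Tb r s0 - t) := mul_pos hr (sub_pos.2 ht)
  have h1 := ((((hasDerivAt_id t).const_sub (Tb r s0)).const_mul r).log h0.ne').neg.div_const r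
  refine h1.congr_deriv ?_
  rw [sOf, mul_div_cancel₀ _ hr.ne', Real.exp_neg, Real.exp_log h0]
  have := (sub_pos.2 ht).ne'
  simp only [id]
  field_simp

theorem contDiffAt_sOf (hr : 0 < r) {t : ℝ} (ht : t < Tb r s0) : ContDiffAt ℝ 1 (sOf r s0) t := by
  have h0 : 0 < r * (Tb r s0 - t) := mul_pos hr (sub_pos.2 ht)
  exact (((contDiffAt_const.mul (contDiffAt_const.sub contDiffAt_id)).log h0.ne').neg).div_const r

theorem tendsto_sOf (hr : 0 < r) : Tendsto (sOf r s0) (𝓝[<] Tb r s0) atTop := by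
  have h1 : Tendsto (fun t => r * (Tb r s0 - t)) (𝓝[<] Tb r s0) (𝓝[>] 0) := by
    refine tendsto_nhdsWithin_iff.2 ⟨?_, ?_⟩
    · have : Continuous fun t => r * (Tb r s0 - t) := by fun_prop
      simpa using (this.tendsto (Tb r s0)).mono_left nhdsWithin_le_nhds
    · filter_upwards [self_mem_nhdsWithin] with t ht using mul_pos hr (sub_pos.2 ht)
  exact (tendsto_neg_atBot_atTop.comp (Real.tendsto_log_nhdsGT_zero.comp h1)).atTop_div_const hr

end Time

theorem per_lat {α : Type*} {G : E3 → α} (h : Per G) (n : Ix → ℤ) (x : E3) :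
    G (x + lat n) = G x := h.add_of_int n (fun _ => rfl) x

theorem per_fderiv {G : Type*} [NormedAddCommGroup G] [NormedSpace ℝ G] {w : ℝ × E3 → G}
    (h : ∀ s, Per fun x => w (s, x)) (s : ℝ) : Per fun x => fderiv ℝ w (s, x) := fun i x => by
  have h1 : (fun q : ℝ × E3 => w (q + (0, ev i))) = w := funext fun ⟨a, b⟩ => by
    simpa using h a i b
  have h2 := fderiv_comp_add_right (𝕜 := ℝ) (f := w) (x := (s, x)) (0, ev i)
  rw [h1] at h2
  simpa using h2.symm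

theorem wt_aff_le {c M : ℝ} {u : E3} (hc : 0 < c) (hM : ‖u‖ + c ≤ M) (W : E3) :
    1 + ‖u + c • W‖ ≤ (1 + M) * (1 + ‖W‖) := by
  have h1 := norm_add_le u (c • W)
  rw [norm_smul, Real.norm_of_nonneg hc.le] at h1
  nlinarith [norm_nonneg u, norm_nonneg W, mul_nonneg (norm_nonneg u) (norm_nonneg W)]

theorem exists_aff {c : ℝ} (hc : 0 < c) (u v : E3) : ∃ V, v = u + c • V :=
  ⟨c⁻¹ • (v - u), by simp [smul_smul, hc.ne']⟩

/-- The hypotheses on the physical mean velocity `u`, thermal speed `c` and rescaled density `H`. -/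
structure Phys (P : ℕ) (r s0 A K m : ℝ) (u : ℝ × E3 → E3) (c : ℝ × E3 → ℝ)
    (H : ℝ × E3 × E3 → ℝ) (D : ℝ × E3 × E3 → ℝ × E3 × E3 →L[ℝ] ℝ) : Prop where
  hP : 2 * dd + 4 ≤ P
  hr : 0 < r
  hA : 0 < A
  hm : 0 < m
  cu : ContDiff ℝ 1 u
  cc : ContDiff ℝ 1 c
  cu0 : ContDiff ℝ ∞ fun x => u (s0, x)
  cc0 : ContDiff ℝ ∞ fun x => c (s0, x)
  cH0 : ContDiff ℝ ∞ fun p : E3 × E3 => H (s0, p)
  pu : ∀ s, Per fun x => u (s, x)
  pc : ∀ s, Per fun x => c (s, x)
  pH : ∀ s, s0 ≤ s → Per fun x V => H (s, x, V)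
  cpos : ∀ p, 0 < c p
  top : Tendsto (fun s => c (s, 0)) atTop atTop
  far : ∀ ρ > (0 : ℝ), ∃ M, ∀ s, s0 ≤ s → ∀ x, (∀ n, ρ ≤ ‖x + lat n‖) → ‖u (s, x)‖ + c (s, x) ≤ M
  hd : ∀ p ∈ Ici s0 ×ˢ univ, HasFDerivWithinAt H (D p) (Ici s0 ×ˢ univ) p
  cd : ContinuousOn D (Ici s0 ×ˢ univ)
  nonneg : ∀ x V, 0 ≤ H (s0, x, V)
  le : ∀ x V, H (s0, x, V) ≤ K * sqM V
  abs : ∀ s, s0 ≤ s → ∀ x V, (1 + ‖V‖) ^ P * |H (s, x, V)| ≤ K
  dec : ∀ S, ∃ K', ∀ s ∈ Icc s0 S, ∀ x V, (1 + ‖V‖) ^ P * ‖D (s, x, V)‖ ≤ K'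
  low : ∀ s, s0 ≤ s → ∀ x, m ≤ ∫ V, H (s, x, V)
  int : ∀ s, s0 ≤ s → ∀ x V, Integrable (collInt (Bk dd) (fun W => H (s, x, W)) V) (collMeas dd)
  eqn : ∀ s, s0 ≤ s → ∀ x V,
    D (s, x, V) (Real.exp (r * s), u (s, x) + c (s, x) • V,
      -((c (s, x))⁻¹ • (fderiv ℝ u (s, x) (Real.exp (r * s), u (s, x) + c (s, x) • V) +
        fderiv ℝ c (s, x) (Real.exp (r * s), u (s, x) + c (s, x) • V) • V))) =
      A * c (s, x) ^ ((dd : ℝ) + 199 / 100) * Q (Bk dd) (fun W => H (s, x, W)) V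

/-- the density in the variables `(s, x, v)` -/
def Fs (A : ℝ) (u : ℝ × E3 → E3) (c : ℝ × E3 → ℝ) (H : ℝ × E3 × E3 → ℝ) (s : ℝ) (x : E3) :
    E3 → ℝ := aff A (c (s, x)) (u (s, x)) fun W => H (s, x, W)

namespace Phys

variable {P : ℕ} {r s0 A K m : ℝ} {u : ℝ × E3 → E3} {c : ℝ × E3 → ℝ} {H : ℝ × E3 × E3 → ℝ}
  {D : ℝ × E3 × E3 → ℝ × E3 × E3 →L[ℝ] ℝ} (h : Phys P r s0 A K m u c H D)

include h

theorem contH {s : ℝ} (hs : s0 ≤ s) (x : E3) : Continuous fun W => H (s, x, W) := by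
  have h1 : ContinuousOn H (Ici s0 ×ˢ univ) := fun p hp => (h.hd p hp).continuousWithinAt
  exact h1.comp_continuous (by fun_prop) fun W => ⟨hs, trivial⟩

theorem K_nonneg : 0 ≤ K :=
  nonneg_of_mul_nonneg_left ((h.nonneg 0 0).trans (h.le 0 0)) (sqM_pos 0)

theorem leP {s : ℝ} (hs : s0 ≤ s) (x V : E3) : H (s, x, V) ≤ K * wP V :=
  (le_abs_self _).trans (abs_le_wP h.hP (h.abs s hs x V))

theorem bound (S : ℝ) : ∃ M, ∀ s ∈ Icc s0 S, ∀ x, ‖u (s, x)‖ + c (s, x) ≤ M := by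
  obtain ⟨M, -, hM⟩ := exists_bound_of_per (ψ := fun s x => ‖u (s, x)‖ + c (s, x))
    (h.cu.continuous.norm.add h.cc.continuous)
    (fun s => (h.pu s).map₂ (h.pc s) fun a b => ‖a‖ + b) (isCompact_Icc (a := s0) (b := S))
  exact ⟨M, fun s hs x => (le_abs_self _).trans (hM s hs x)⟩

theorem per {s : ℝ} (hs : s0 ≤ s) (n : Ix → ℤ) (x : E3) :
    Fs A u c H s (x + lat n) = Fs A u c H s x := by
  have h1 := per_lat (h.pu s) n x
  have h2 := per_lat (h.pc s) n x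
  have h3 := per_lat (h.pH s hs) n x
  rw [Fs, Fs, h1, h2, h3]

theorem upper {s : ℝ} (hs : s0 ≤ s) {x : E3} (h0 : ∀ V, 0 ≤ H (s, x, V)) {M : ℝ}
    (hM : ‖u (s, x)‖ + c (s, x) ≤ M) :
    mass (Fs A u c H s x) ≤ A * M ^ dd * (K * I2) ∧
      energy (Fs A u c H s x) ≤ A * M ^ dd * M ^ 2 * (K * I2) := by
  have hc := h.cpos (s, x)
  have hA := h.hA
  have hK := mul_nonneg h.K_nonneg I2_nonneg
  have h1 : c (s, x) ≤ M := le_trans (by simp) hM
  constructor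
  · refine (mass_aff_le hc hA.le (h.contH hs x) h0 (h.leP hs x)).trans ?_
    gcongr
  · refine (energy_aff_le hc hA.le h0 (h.leP hs x)).trans ?_
    have := hc.le.trans h1
    gcongr

theorem lower {s : ℝ} (hs : s0 ≤ s) (x : E3) : A * c (s, x) ^ dd * m ≤ mass (Fs A u c H s x) := by
  have hc := h.cpos (s, x)
  have hA := h.hA
  rw [Fs, mass_aff hc]
  exact mul_le_mul_of_nonneg_left (h.low s hs x) (by positivity)

theorem admissible : Admissible (Fs A u c H s0) where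
  smooth := by
    have h1 : ContDiff ℝ ∞ fun p : E3 × E3 => (c (s0, p.1))⁻¹ • (p.2 - u (s0, p.1)) :=
      ((h.cc0.comp contDiff_fst).inv fun p => (h.cpos _).ne').smul
        (contDiff_snd.sub (h.cu0.comp contDiff_fst))
    exact contDiff_const.mul (h.cH0.comp (contDiff_fst.prodMk h1))
  periodic := h.per le_rfl
  nonneg := fun x => aff_nonneg h.hA.le (h.nonneg x)
  decay := fun q _ => by
    obtain ⟨M, hM⟩ := h.bound s0
    exact ⟨_, fun x v => aff_decay (h.cpos _) h.hA.le (h.nonneg x) (h.le x)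
      (hM s0 ⟨le_rfl, le_rfl⟩ x) q v⟩
  hydro := by
    obtain ⟨M, hM⟩ := h.bound s0
    obtain ⟨c0, hc0, hc⟩ := exists_lower_bound_of_per (ψ := fun s x => c (s, x)) h.cc.continuous
      h.pc (isCompact_singleton (x := s0)) fun _ _ _ => h.cpos _
    have hA := h.hA
    have hm := h.hm
    refine ⟨A * c0 ^ dd * m, A * M ^ dd * (K * I2), A * M ^ dd * M ^ 2 * (K * I2),
      A * K * (A * M ^ dd * (K * I2)), by positivity, fun x => ?_⟩
    have h1 := h.upper le_rfl (h.nonneg x) (hM s0 ⟨le_rfl, le_rfl⟩ x)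
    refine ⟨le_trans ?_ (h.lower le_rfl x), h1.1, h1.2, integrable_aff_log (h.cpos _) hA.le
      (h.contH le_rfl x) (h.nonneg x) (h.leP le_rfl x), ?_⟩
    · have := hc s0 rfl x
      gcongr
    · exact (entropy_aff_le (h.cpos _) hA.le (h.contH le_rfl x) (h.nonneg x)
        (h.leP le_rfl x)).trans (mul_le_mul_of_nonneg_left h1.1 (mul_nonneg hA.le h.K_nonneg))

theorem implosion (hp : ∀ t ∈ Ico 0 (Tb r s0), ∀ x v, 0 ≤ Fs A u c H (sOf r s0 t) x v) :
    Implosion (Tb r s0) (fun t => Fs A u c H (sOf r s0 t)) 0 := by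
  have h0 : ∀ t ∈ Ico 0 (Tb r s0), ∀ x V, 0 ≤ H (sOf r s0 t, x, V) := fun t ht x V => by
    have := hp t ht x (u (sOf r s0 t, x) + c (sOf r s0 t, x) • V)
    rw [Fs, aff_apply (h.cpos _)] at this
    exact nonneg_of_mul_nonneg_right this h.hA
  have hev : ∀ᶠ t in 𝓝[<] Tb r s0, t ∈ Ico 0 (Tb r s0) := Ico_mem_nhdsLT (Tb_pos h.hr)
  have h1 : Tendsto (fun t => mass (Fs A u c H (sOf r s0 t) 0)) (𝓝[<] Tb r s0) atTop := by
    refine tendsto_atTop_mono' _ (hev.mono fun t ht => h.lower (le_sOf h.hr ht) 0) ?_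
    exact (((tendsto_pow_atTop (NeZero.ne dd)).comp (h.top.comp (tendsto_sOf h.hr))).const_mul_atTop
      h.hA).atTop_mul_const h.hm
  refine ⟨h1, ?_, fun U hU => ?_⟩
  · refine tendsto_atTop_mono' _ (hev.mono fun t ht => energy_aff_ge (h.cpos _) h.hA.le
      (h.contH (le_sOf h.hr ht) 0) (h0 t ht 0) (h.leP (le_sOf h.hr ht) 0)) ?_
    exact tendsto_atTop_add_const_right _ (-(A * K * volB)) h1
  · obtain ⟨ρ, hρ, hU⟩ := Metric.mem_nhds_iff.1 hU
    obtain ⟨M, hM⟩ := h.far ρ hρ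
    refine ⟨max (A * M ^ dd * (K * I2)) (A * M ^ dd * M ^ 2 * (K * I2)), fun t ht x hx => ?_⟩
    have h2 := h.upper (le_sOf h.hr ht) (h0 t ht x) (hM _ (le_sOf h.hr ht) x fun n => by
      by_contra hlt
      exact hx n (hU (by simpa using hlt)))
    exact ⟨h2.1.trans (le_max_left _ _), h2.2.trans (le_max_right _ _)⟩

theorem c1 : ContDiffOn ℝ 1 (fun p : ℝ × E3 × E3 => Fs A u c H (sOf r s0 p.1) p.2.1 p.2.2)
    (Ico 0 (Tb r s0) ×ˢ univ) := by
  have hH : ContDiffOn ℝ 1 H (Ici s0 ×ˢ univ) := by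
    have hu : UniqueDiffOn ℝ (Ici s0 ×ˢ (univ : Set (E3 × E3))) :=
      (uniqueDiffOn_Ici s0).prod uniqueDiffOn_univ
    rw [show (1 : WithTop ℕ∞) = 0 + 1 by simp,
      contDiffOn_succ_iff_hasFDerivWithinAt_of_uniqueDiffOn hu]
    exact ⟨by simp, D, contDiffOn_zero.2 h.cd, h.hd⟩
  have h1 : ContDiffOn ℝ 1 (fun p : ℝ × E3 × E3 => sOf r s0 p.1) (Ico 0 (Tb r s0) ×ˢ univ) :=
    fun p hp => ((contDiffAt_sOf h.hr hp.1.2).comp p contDiffAt_fst).contDiffWithinAt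
  have h2 : ContDiffOn ℝ 1 (fun p : ℝ × E3 × E3 => (sOf r s0 p.1, p.2.1))
      (Ico 0 (Tb r s0) ×ˢ univ) := h1.prodMk (by fun_prop)
  have h3 : ContDiffOn ℝ 1 (fun p : ℝ × E3 × E3 =>
      (c (sOf r s0 p.1, p.2.1))⁻¹ • (p.2.2 - u (sOf r s0 p.1, p.2.1))) (Ico 0 (Tb r s0) ×ˢ univ) :=
    ((h.cc.comp_contDiffOn h2).inv fun p _ => (h.cpos _).ne').smul
      (ContDiffOn.sub (by fun_prop) (h.cu.comp_contDiffOn h2))
  exact contDiffOn_const.mul (hH.comp (h1.prodMk (ContDiffOn.prodMk (by fun_prop) h3))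
    fun p hp => ⟨le_sOf h.hr hp.1, trivial⟩)

/-- the derivative of the density in all variables -/
theorem hasF {s : ℝ} (hs : s0 ≤ s) (x V : E3) : ∃ L : ℝ × E3 × E3 →L[ℝ] ℝ,
    HasFDerivWithinAt (fun p : ℝ × E3 × E3 => Fs A u c H p.1 p.2.1 p.2.2) L (Ici s0 ×ˢ univ)
      (s, x, u (s, x) + c (s, x) • V) ∧
    ∀ τ z w, L (τ, z, w) = A * D (s, x, V) (τ, z, (c (s, x))⁻¹ •
      (w - (fderiv ℝ u (s, x) (τ, z) + fderiv ℝ c (s, x) (τ, z) • V))) := by
  have hc := h.cpos (s, x)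
  set v := u (s, x) + c (s, x) • V with hv
  have hV : (c (s, x))⁻¹ • (v - u (s, x)) = V := by simp [hv, smul_smul, hc.ne']
  have d1 : HasFDerivAt (fun p : ℝ × E3 × E3 => p.2) _ (s, x, v) := hasFDerivAt_snd (𝕜 := ℝ)
  have d0 : HasFDerivAt (fun p : ℝ × E3 × E3 => (p.1, p.2.1)) _ (s, x, v) :=
    hasFDerivAt_fst.prodMk d1.fst
  have du := (h.cu.differentiable one_ne_zero (s, x)).hasFDerivAt.comp (s, x, v) d0
  have dc := (h.cc.differentiable one_ne_zero (s, x)).hasFDerivAt.comp (s, x, v) d0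
  have dv := d1.snd
  have hL : HasFDerivAt (fun p : ℝ × E3 × E3 =>
      (p.1, p.2.1, (c (p.1, p.2.1))⁻¹ • (p.2.2 - u (p.1, p.2.1)))) _ (s, x, v) :=
    hasFDerivAt_fst.prodMk (d1.fst.prodMk (((hasDerivAt_inv hc.ne').comp_hasFDerivAt (s, x, v) dc).smul
      (dv.sub du)))
  have hD : HasFDerivWithinAt H (D (s, x, V)) (Ici s0 ×ˢ univ)
      (s, x, (c (s, x))⁻¹ • (v - u (s, x))) := by
    rw [hV]; exact h.hd _ ⟨hs, trivial⟩
  refine ⟨_, (HasFDerivWithinAt.comp (f := fun p : ℝ × E3 × E3 =>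
    (p.1, p.2.1, (c (p.1, p.2.1))⁻¹ • (p.2.2 - u (p.1, p.2.1)))) (s, x, v) hD
      hL.hasFDerivWithinAt fun p (hp : p ∈ Ici s0 ×ˢ univ) => mk_mem_prod hp.1 trivial).const_mul A,
    fun τ z w => ?_⟩
  have h1 : v - u (s, x) = c (s, x) • V := by simp [hv]
  simp only [ContinuousLinearMap.prod_apply, ContinuousLinearMap.coe_fst',
    ContinuousLinearMap.coe_snd', add_apply, smul_apply, ContinuousLinearMap.comp_apply,
    ContinuousLinearMap.smulRight_apply, sub_apply, Function.comp_apply, Pi.sub_apply, h1,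
    smul_eq_mul, smul_smul]
  congr 4
  rw [show -(c (s, x) ^ 2)⁻¹ * fderiv ℝ c (s, x) (τ, z) * c (s, x) =
    -((c (s, x))⁻¹ * fderiv ℝ c (s, x) (τ, z)) by field_simp]
  module

theorem eqn' {t : ℝ} (ht : t ∈ Ico 0 (Tb r s0)) (x v : E3) :
    derivWithin (fun τ => Fs A u c H (sOf r s0 τ) x v) (Ico 0 (Tb r s0)) t +
      fderiv ℝ (fun y => Fs A u c H (sOf r s0 t) y v) x v = Q (Bk dd) (Fs A u c H (sOf r s0 t) x) v := by
  have hs := le_sOf h.hr ht
  set s := sOf r s0 t with hsdef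
  have hc := h.cpos (s, x)
  obtain ⟨V, rfl⟩ := exists_aff hc (u (s, x)) v
  obtain ⟨L, hF, hL⟩ := h.hasF hs x V
  set v := u (s, x) + c (s, x) • V with hv
  have h1 : HasDerivWithinAt (fun τ => Fs A u c H (sOf r s0 τ) x v)
      (L (Real.exp (r * s), 0, 0)) (Ico 0 (Tb r s0)) t :=
    hF.comp_hasDerivWithinAt (f := fun τ => (sOf r s0 τ, x, v)) t ((hasDerivAt_sOf h.hr ht.2).prodMk
      (hasDerivAt_const t (x, v))).hasDerivWithinAt fun τ hτ => mk_mem_prod (le_sOf h.hr hτ) trivial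
  have h2 : HasFDerivAt (fun y => Fs A u c H s y v) _ x :=
    hasFDerivWithinAt_univ.1 (hF.comp (f := fun y => (s, y, v)) x
      ((hasFDerivAt_const s x).prodMk (hasFDerivAt_prodMk_left x v)).hasFDerivWithinAt
      fun y _ => mk_mem_prod hs trivial)
  rw [h1.derivWithin (uniqueDiffOn_Ico 0 _ t ht), h2.fderiv, ContinuousLinearMap.comp_apply,
    ← map_add, Fs, hv, (coll_aff hc _ _ V (h.int s hs x V)).2]
  simp only [ContinuousLinearMap.inl_apply, ContinuousLinearMap.prod_apply, zero_apply,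
    Prod.mk_add_mk, add_zero, zero_add, hL, zero_sub, smul_neg]
  rw [h.eqn s hs x V]
  ring

theorem nice (S : ℝ) : ∃ K', ∀ s ∈ Icc s0 S, (∀ x, Coll.Nice P K' (Fs A u c H s x)) ∧
    ∀ x y v, |Fs A u c H s x v - Fs A u c H s y v| ≤ K' * ‖x - y‖ := by
  obtain ⟨M, hM⟩ := h.bound S
  obtain ⟨c0, hc0, hc⟩ := exists_lower_bound_of_per (ψ := fun s x => c (s, x)) h.cc.continuous
    h.pc (isCompact_Icc (a := s0) (b := S)) fun _ _ _ => h.cpos _
  obtain ⟨N, hN0, hN⟩ := exists_bound_of_per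
    (ψ := fun s x => ‖fderiv ℝ u (s, x)‖ + ‖fderiv ℝ c (s, x)‖)
    ((h.cu.continuous_fderiv one_ne_zero).norm.add (h.cc.continuous_fderiv one_ne_zero).norm)
    (fun s => (per_fderiv h.pu s).map₂ (per_fderiv h.pc s) fun a b => ‖a‖ + ‖b‖)
    (isCompact_Icc (a := s0) (b := S))
  obtain ⟨K', hK'⟩ := h.dec S
  have hA := h.hA
  have hK := h.K_nonneg
  refine ⟨max (2 ^ P * ((1 + M) ^ P * (A * K + A * (K' * c0⁻¹))))
    (A * (K' * (1 + c0⁻¹ * N))), fun s hs => ⟨fun x => ?_, fun x y v => ?_⟩⟩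
  · have hcx := h.cpos (s, x)
    have hK0 : 0 ≤ K' := le_trans (by positivity) (hK' s hs x 0)
    have hM0 : 0 ≤ M := le_trans (by positivity) (hM s hs x)
    have hd : ∀ V, ∃ L : E3 →L[ℝ] ℝ, HasFDerivAt (Fs A u c H s x) L (u (s, x) + c (s, x) • V) ∧
        ‖L‖ ≤ A * (‖D (s, x, V)‖ * c0⁻¹) := fun V => by
      obtain ⟨L, hF, hL⟩ := h.hasF hs.1 x V
      refine ⟨_, hasFDerivWithinAt_univ.1 (hF.comp (f := fun w => (s, x, w)) _
        ((hasFDerivAt_const s _).prodMk (hasFDerivAt_prodMk_right x _)).hasFDerivWithinAt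
        fun y _ => mk_mem_prod hs.1 trivial),
        ContinuousLinearMap.opNorm_le_bound _ (by positivity) fun w => ?_⟩
      have e : ((0 : ℝ), (0 : E3)) = 0 := rfl
      simp only [ContinuousLinearMap.comp_apply, ContinuousLinearMap.prod_apply, zero_apply,
        ContinuousLinearMap.inr_apply, hL, e, map_zero, zero_smul, add_zero, sub_zero]
      rw [norm_mul, Real.norm_of_nonneg hA.le, mul_assoc, mul_assoc]
      refine mul_le_mul_of_nonneg_left (((D (s, x, V)).le_opNorm _).trans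
        (mul_le_mul_of_nonneg_left ?_ (norm_nonneg _))) hA.le
      simp only [Prod.norm_mk, norm_zero, norm_smul, norm_inv, Real.norm_of_nonneg hcx.le]
      rw [max_eq_right (by positivity), max_eq_right (by positivity)]
      exact mul_le_mul_of_nonneg_right (inv_anti₀ hc0 (hc s hs x)) (norm_nonneg _)
    have hw : ∀ V : E3, (1 + ‖u (s, x) + c (s, x) • V‖) ^ P ≤
        (1 + M) ^ P * (1 + ‖V‖) ^ P := fun V => by
      rw [← mul_pow]
      exact pow_le_pow_left₀ (by positivity) (wt_aff_le hcx (hM s hs x) V) _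
    refine (Coll.nice_of_fderiv (fun v => ?_) (fun v => ?_) fun v => ?_).mono_const (le_max_left _ _)
    all_goals obtain ⟨V, rfl⟩ := exists_aff hcx (u (s, x)) v
    · exact (hd V).choose_spec.1.differentiableAt
    · rw [Fs, aff_apply hcx, abs_mul, abs_of_pos hA]
      calc _ ≤ (1 + M) ^ P * (1 + ‖V‖) ^ P * (A * |H (s, x, V)|) :=
            mul_le_mul_of_nonneg_right (hw V) (by positivity)
        _ = (1 + M) ^ P * (A * ((1 + ‖V‖) ^ P * |H (s, x, V)|) + 0) := by ring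
        _ ≤ _ := by
            gcongr
            · exact h.abs s hs.1 x V
            · positivity
    · obtain ⟨L, h1, h2⟩ := hd V
      rw [h1.fderiv]
      calc _ ≤ (1 + M) ^ P * (1 + ‖V‖) ^ P * (A * (‖D (s, x, V)‖ * c0⁻¹)) :=
            mul_le_mul (hw V) h2 (norm_nonneg _) (by positivity)
        _ = (1 + M) ^ P * (0 + A * ((1 + ‖V‖) ^ P * ‖D (s, x, V)‖ * c0⁻¹)) := by ring
        _ ≤ _ := by
            gcongr
            · positivity
            · exact hK' s hs x V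
  · have hK0 : 0 ≤ K' := le_trans (by positivity) (hK' s hs x 0)
    have hd : ∀ x, ∃ L : E3 →L[ℝ] ℝ, HasFDerivAt (fun y => Fs A u c H s y v) L x ∧
        ‖L‖ ≤ A * (K' * (1 + c0⁻¹ * N)) := fun x => by
      have hcx := h.cpos (s, x)
      obtain ⟨V, rfl⟩ := exists_aff hcx (u (s, x)) v
      obtain ⟨L, hF, hL⟩ := h.hasF hs.1 x V
      refine ⟨_, hasFDerivWithinAt_univ.1 (hF.comp (f := fun y => (s, y, u (s, x) + c (s, x) • V)) x
        ((hasFDerivAt_const s x).prodMk (hasFDerivAt_prodMk_left x _)).hasFDerivWithinAt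
        fun y _ => mk_mem_prod hs.1 trivial),
        ContinuousLinearMap.opNorm_le_bound _ (by positivity) fun z => ?_⟩
      simp only [ContinuousLinearMap.comp_apply, ContinuousLinearMap.prod_apply, zero_apply,
        ContinuousLinearMap.inl_apply, hL, zero_sub]
      have hV : 1 ≤ 1 + ‖V‖ := by linarith [norm_nonneg V]
      have e : ‖((0 : ℝ), z)‖ = ‖z‖ := by simp
      have h1 := (fderiv ℝ u (s, x)).le_opNorm (0, z)
      have h2 := (fderiv ℝ c (s, x)).le_opNorm (0, z)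
      have h3 := (le_abs_self _).trans (hN s hs x)
      rw [e] at h1 h2
      have h4 : ‖fderiv ℝ u (s, x) (0, z) + fderiv ℝ c (s, x) (0, z) • V‖ ≤
          N * ((1 + ‖V‖) * ‖z‖) := by
        refine (norm_add_le _ _).trans ?_
        rw [norm_smul]
        calc _ ≤ ‖fderiv ℝ u (s, x)‖ * ‖z‖ * (1 + ‖V‖) + ‖fderiv ℝ c (s, x)‖ * ‖z‖ * (1 + ‖V‖) :=
              add_le_add (h1.trans (le_mul_of_one_le_right (by positivity) hV))
                (mul_le_mul h2 (by linarith) (norm_nonneg _) (by positivity))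
          _ = (‖fderiv ℝ u (s, x)‖ + ‖fderiv ℝ c (s, x)‖) * ((1 + ‖V‖) * ‖z‖) := by ring
          _ ≤ _ := mul_le_mul_of_nonneg_right h3 (by positivity)
      have h5 : ‖((0 : ℝ), z, (c (s, x))⁻¹ •
          -(fderiv ℝ u (s, x) (0, z) + fderiv ℝ c (s, x) (0, z) • V))‖ ≤
          (1 + c0⁻¹ * N) * ((1 + ‖V‖) * ‖z‖) := by
        have h6 : ‖z‖ ≤ (1 + ‖V‖) * ‖z‖ := le_mul_of_one_le_left (norm_nonneg _) hV
        have h7 : 0 ≤ c0⁻¹ * (N * ((1 + ‖V‖) * ‖z‖)) := by positivity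
        simp only [Prod.norm_mk, norm_zero, norm_smul, norm_inv, norm_neg,
          Real.norm_of_nonneg hcx.le]
        refine max_le (by positivity) (max_le (by nlinarith) ?_)
        have := mul_le_mul (inv_anti₀ hc0 (hc s hs x)) h4 (norm_nonneg _) (by positivity)
        nlinarith [norm_nonneg z]
      have h6 : (1 + ‖V‖) * ‖D (s, x, V)‖ ≤ K' :=
        (mul_le_mul_of_nonneg_right (le_self_pow₀ hV (by have := h.hP; omega)) (norm_nonneg _)).trans
          (hK' s hs x V)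
      rw [norm_mul, Real.norm_of_nonneg hA.le, mul_assoc]
      refine mul_le_mul_of_nonneg_left (((D (s, x, V)).le_opNorm _).trans ?_) hA.le
      calc _ ≤ ‖D (s, x, V)‖ * ((1 + c0⁻¹ * N) * ((1 + ‖V‖) * ‖z‖)) :=
            mul_le_mul_of_nonneg_left h5 (norm_nonneg _)
        _ = (1 + ‖V‖) * ‖D (s, x, V)‖ * (1 + c0⁻¹ * N) * ‖z‖ := by ring
        _ ≤ _ := by gcongr
    choose L hL using hd
    refine (convex_univ.norm_image_sub_le_of_norm_hasFDerivWithin_le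
      (fun x _ => (hL x).1.hasFDerivWithinAt) (fun x _ => (hL x).2) (mem_univ y) (mem_univ x)).trans ?_
    exact mul_le_mul_of_nonneg_right (le_max_right _ _) (norm_nonneg _)

theorem admissible' : Admissible (Fs A u c H (sOf r s0 0)) := by
  rw [sOf_zero h.hr]
  exact h.admissible

theorem pre : PreSol P (Tb r s0) fun t => Fs A u c H (sOf r s0 t) where
  c1 := h.c1
  periodic := fun _ ht => h.per (le_sOf h.hr ht)
  integrable := fun t ht x v => by
    obtain ⟨V, rfl⟩ := exists_aff (h.cpos (sOf r s0 t, x)) (u (sOf r s0 t, x)) v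
    exact (coll_aff (h.cpos _) _ _ V (h.int _ (le_sOf h.hr ht) x V)).1
  eqn := fun _ ht => h.eqn' ht
  nice := fun T' hT' => by
    obtain ⟨K', hK'⟩ := h.nice (sOf r s0 T')
    exact ⟨K', fun t ht => hK' _ ⟨le_sOf h.hr ⟨ht.1, ht.2.trans_lt hT'⟩, sOf_mono h.hr ht.2 hT'⟩⟩

end Phys

end Pool.Agent.BoltzM.M6
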